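import Mathlib

open Finset

namespace H11.BN

variable {V : Type} [Fintype V] (G : SimpleGraph V)

/-- The eccentricity of `v` inside its component. -/
noncomputable def ecc (v : V) : ℕ := sSup {k | ∃ u, G.Reachable v u ∧ G.dist v u = k}

/-- A broadcast (on each component): an isolated vertex broadcasts with strength `1`, every other
vertex with strength at most its eccentricity in its component. -/
def IsBroadcast (f : V → ℕ) : Prop :=
  ∀ v, ((∀ u, ¬ G.Adj v u) → f v = 1) ∧ ((∃ u, G.Adj v u) → f v ≤ ecc G v)

/-- `N_f(v)` (distances between different components are infinite). -/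
def Nf (f : V → ℕ) (v : V) : Set V := {u | G.edist u v ≤ f v}

/-- `B_f(v)`. -/
def Bf (f : V → ℕ) (v : V) : Set V := {u | G.edist u v = f v}

/-- Boundary independence. -/
def BnIndep (f : V → ℕ) : Prop :=
  ∀ u v, u ≠ v → 0 < f u → 0 < f v → Nf G f u ∩ Nf G f v ⊆ Bf G f u ∩ Bf G f v

variable {G}

theorem ex_at (v : V) (k : ℕ) (hk : k ≤ ecc G v) : ∃ u, G.edist u v = k := by
  have hb : BddAbove {k | ∃ u, G.Reachable v u ∧ G.dist v u = k} := by
    refine (Set.Finite.subset (Set.finite_range (G.dist v)) ?_).bddAbove
    rintro _ ⟨u, -, rfl⟩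
    exact ⟨u, rfl⟩
  obtain ⟨w, hr, hw⟩ := Nat.sSup_mem (s := {k | ∃ u, G.Reachable v u ∧ G.dist v u = k})
    ⟨0, v, SimpleGraph.Reachable.refl _, by simp⟩ hb
  have hk' : k ≤ G.dist v w := by rw [hw]; exact hk
  obtain ⟨p, hp⟩ := hr.exists_walk_length_eq_dist
  have h1 := SimpleGraph.dist_le (p.take k)
  have h2 := SimpleGraph.dist_le (p.drop k)
  have h3 := (p.take k).reachable.dist_triangle_left w
  simp only [SimpleGraph.Walk.take_length, SimpleGraph.Walk.drop_length] at h1 h2
  refine ⟨p.getVert k, ?_⟩
  rw [SimpleGraph.edist_comm, ← (p.take k).reachable.coe_dist_eq_edist]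
  congr 1
  omega

end H11.BN

open H11.BN

theorem Pool.Agent.Results.MP_8bdd73_co.Bound.result {V : Type} [Fintype V] (G : SimpleGraph V)
    [DecidableRel G.Adj] (f : V → ℕ) (hf : IsBroadcast G f) (hb : BnIndep G f) :
    ∑ v, f v + G.minDegree ≤ Fintype.card V := by
  classical
  -- vertices at each distance `≤ f v`, except possibly `k = f v = 1` at an isolated vertex
  have ex : ∀ v k, k ≤ f v → (k = 0 ∨ ∃ u, G.Adj v u) → ∃ u, G.edist u v = k := by
    rintro v k hk (rfl | h)
    · exact ⟨v, by simp⟩
    · exact ex_at v k (hk.trans ((hf v).2 h))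
  have big : ∀ v, 2 ≤ f v → ∃ u, G.Adj v u := by
    intro v hv
    by_contra h
    have := (hf v).1 (fun u hu => h ⟨u, hu⟩)
    omega
  let I : V → Finset V := fun v => univ.filter fun u => G.edist u v < f v
  have far : ∀ u v x, u ≠ v → G.edist x u < f u → 0 < f v → ¬ G.edist x v ≤ f v := by
    intro u v x huv h1 h2 h3
    have h0 : 0 < f u := by
      by_contra h
      rw [show f u = 0 by omega] at h1
      simp at h1
    exact h1.ne (hb u v huv h0 h2 ⟨h1.le, h3⟩).1
  have pos : ∀ v x, G.edist x v < f v → 0 < f v := by
    intro v x h1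
    by_contra h
    rw [show f v = 0 by omega] at h1
    simp at h1
  have hI : ∀ v, f v ≤ (I v).card := by
    intro v
    rw [← card_range (f v)]
    refine card_le_card_of_surjOn (fun u => (G.edist u v).toNat) fun k hk => ?_
    have hk' : k < f v := by simpa using hk
    obtain ⟨u, hu⟩ := ex v k hk'.le (by
      rcases Nat.eq_zero_or_pos k with h | h
      · exact .inl h
      · exact .inr (big v (by omega)))
    exact ⟨u, by simpa [I, hu] using hk', by simp [hu]⟩
  have hd : ((univ : Finset V) : Set V).PairwiseDisjoint I := by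
    intro u _ v _ huv
    refine disjoint_left.2 fun x h1 h2 => ?_
    have h2' := (mem_filter.1 h2).2
    exact far u v x huv (mem_filter.1 h1).2 (pos v x h2') h2'.le
  have hU := card_biUnion hd
  have hc := card_add_card_compl (univ.biUnion I)
  by_cases h : ∃ v, 2 ≤ f v
  · obtain ⟨v, hv⟩ := h
    obtain ⟨b, hb'⟩ := ex v (f v) le_rfl (.inr (big v hv))
    have h1 : 0 < (univ.biUnion I)ᶜ.card := by
      refine card_pos.2 ⟨b, mem_compl.2 fun hm => ?_⟩
      obtain ⟨u, -, hu⟩ := mem_biUnion.1 hm
      have hu' := (mem_filter.1 hu).2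
      by_cases e : u = v
      · subst e; exact hu'.ne hb'
      · exact far u v b e hu' (by omega) hb'.le
    have h2 : f v + G.degree v ≤ (I v).card + 1 := by
      have s1 : G.neighborFinset v ⊆ I v := by
        intro u hu
        have hu' : G.edist u v = 1 :=
          SimpleGraph.edist_eq_one_iff_adj.2 ((G.mem_neighborFinset _ _).1 hu).symm
        simp only [I, mem_filter, mem_univ, true_and, hu']
        exact_mod_cast hv
      have s2 : ((range (f v)).erase 1).card ≤ (I v \ G.neighborFinset v).card := by
        refine card_le_card_of_surjOn (fun u => (G.edist u v).toNat) fun k hk => ?_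
        have hk' : k ≠ 1 ∧ k < f v := by simpa [and_comm] using hk
        obtain ⟨u, hu⟩ := ex v k hk'.2.le (.inr (big v hv))
        refine ⟨u, mem_coe.2 (mem_sdiff.2 ⟨by simpa [I, hu] using hk'.2, fun h => ?_⟩), by simp [hu]⟩
        have hu' : G.edist u v = 1 :=
          SimpleGraph.edist_eq_one_iff_adj.2 ((G.mem_neighborFinset _ _).1 h).symm
        rw [hu] at hu'
        exact hk'.1 (by exact_mod_cast hu')
      rw [card_erase_of_mem (mem_range.2 hv), card_range, card_sdiff_of_subset s1] at s2
      have := card_le_card s1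
      rw [SimpleGraph.card_neighborFinset_eq_degree] at s2 this
      omega
    have h3 := G.minDegree_le_degree v
    have h4 := add_sum_erase univ f (mem_univ v)
    have h5 := add_sum_erase univ (fun u => (I u).card) (mem_univ v)
    have h6 : ∑ u ∈ univ.erase v, f u ≤ ∑ u ∈ univ.erase v, (I u).card :=
      sum_le_sum fun u _ => hI u
    omega
  · push Not at h
    have h6 : ∑ u, f u ≤ ∑ u, (I u).card := sum_le_sum fun u _ => hI u
    by_cases h' : ∃ v, 0 < f v
    · obtain ⟨v, hv⟩ := h'
      have s1 : G.neighborFinset v ⊆ (univ.biUnion I)ᶜ := by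
        intro x hx
        have hx' : G.edist x v = 1 :=
          SimpleGraph.edist_eq_one_iff_adj.2 ((G.mem_neighborFinset _ _).1 hx).symm
        refine mem_compl.2 fun hm => ?_
        obtain ⟨u, -, hu⟩ := mem_biUnion.1 hm
        have hu' := (mem_filter.1 hu).2
        by_cases e : u = v
        · subst e
          rw [hx'] at hu'
          have : 1 < f u := by exact_mod_cast hu'
          have := h u
          omega
        · exact far u v x e hu' hv (by rw [hx']; exact_mod_cast hv)
      have := card_le_card s1
      rw [SimpleGraph.card_neighborFinset_eq_degree] at this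
      have h3 := G.minDegree_le_degree v
      omega
    · push Not at h'
      rw [sum_eq_zero fun v _ => by have := h' v; omega, zero_add]
      rcases isEmpty_or_nonempty V with e | ⟨⟨v⟩⟩
      · simp
      · exact (G.minDegree_le_degree v).trans (G.degree_lt_card_verts v).le
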